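import Pool.Agent.H80.ASB.Cb1
import Pool.Agent.H31.W.H80.ASB.F1d
import Pool.Agent.H31.W.H80.DIC.Treer
import Pool.Agent.H3.W.Bas
import Pool.Agent.H31.W1.H91.FR.QpG
import Pool.Agent.H57.SWC.Lx
import Pool.Agent.H57.SWC.Lxa

/-!
# `LCellB` from its parts

Cells with the kinds `one, one, k; stp`. `AdmN`: the families of labels of the last coordinate, its
rate at most full. `CbF`: the first jet of the place 2 at the windows of full rate; `CbN`: the last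
coordinate at the windows with a family of small rate. `lCellB_of1`: `LCellB`.
-/

set_option autoImplicit false

namespace Pool.W.ASM

open Pool.ASM

open MeasureTheory Set Filter Topology
open Pool.GEN Pool.PKG Pool.SW Pool.ALT
open Pool.LA91 (FaQ sumQ HerQ her_sum her_fa aePG_fa aePG_sum)
open Pool.ONE (Ext0 Ext)
open Pool.MIC6
open Pool.STR (StaAt SteepAt ThinAt)


/-- **The first jet of the place 2** is few bits beyond its level, at the windows where all the rates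
of the last coordinate are full, for the slopes with `Φ`, in a subclass chosen after the windows; or
the level of the place 2 has no drop there (`F1US`, `F1UZ` give it: `F1US.d`, `F1UZ.d`). -/
def CbF (k : Pool.PKG.Kg) (Φ : (ℕ → ℝ) → Prop) : Prop :=
  ∃ (ι : Type) (_ : Countable ι) (Q : Pool.PKG.PropG 4 ι), Pool.W.PKG.AePG 4 Q ∧ Pool.LA91.HerQ Q ∧
    ∀ h : ℝ, 0 < h → h ≤ 1 → ∀ Sl : ℕ → ℝ, Pool.ASM.SlB k Sl → Φ Sl →
      Pool.W.PKG.F1UD 4 2 h Sl (Pool.PKG.kg4 .one .one k .stp) Q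
        (fun b : Pool.ALT.PosR × ℕ => Pool.ALT.FulR (Pool.W.ASM.AdmN 2) (Sl 3 * Real.log 2) b.1 b.2)

/-- **The last coordinate has no drop** at the windows with a family of small rate, for the slopes
with `Φ`. -/
def CbN (k : Pool.PKG.Kg) (Φ : (ℕ → ℝ) → Prop) : Prop :=
  ∃ (ι : Type) (_ : Countable ι) (Q : Pool.PKG.PropG 4 ι), Pool.W.PKG.AePG 4 Q ∧ Pool.LA91.HerQ Q ∧
    ∀ h : ℝ, 0 < h → h ≤ 1 → ∀ Sl : ℕ → ℝ, Pool.ASM.SlB k Sl → Φ Sl →
      ∀ β' : ℝ, β' < Sl 3 * Real.log 2 → ∀ D : ℕ,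
        Pool.W.PKG.CelZ 4 3 h Sl (Pool.PKG.kg4 .one .one k .stp) Q (fun e : Pool.ALT.PosR => Pool.ALT.LowE (Pool.W.ASM.AdmN 2) β' D e)

/-- `CelZ` with other names of the parameters of the property. -/
theorem _root_.Pool.W.PKG.CelZ.map {ι ι' Lm : Type} {n i : ℕ} {h : ℝ} {Sl : ℕ → ℝ} {κ : ℕ → Pool.PKG.Kg}
    {Q : Pool.PKG.PropG n ι} {Q' : Pool.PKG.PropG n ι'} {Z : Lm → Pool.PKG.PropW n} (H : Pool.W.PKG.CelZ n i h Sl κ Q Z) (f : ι → ι')
    (hf : ∀ p, Q' (f p) = Q p) : Pool.W.PKG.CelZ n i h Sl κ Q' Z := by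
  intro al hal K₀ hK₀ del hdel S₀ hS₀
  obtain ⟨K, N, A, V, h1, h2, H⟩ := H al hal K₀ hK₀ del hdel S₀ hS₀
  refine ⟨K, N, A, V, h1, h2, fun S₂ hS₂ => ?_⟩
  obtain ⟨lam, K', N', V', h3, h4, ε, hε, H⟩ := H S₂ hS₂
  refine ⟨lam, K', N', V', h3, h4, ε, hε, fun S g₀ P θ P₂ θ₂ Eb e₂ c Pt r L T G g hG hg hd hZ => ?_⟩
  obtain ⟨p, M, B₀, B₁, hB, H⟩ := H S g₀ P θ P₂ θ₂ Eb e₂ c Pt r L T G g hG hg hd hZ
  refine ⟨fun k => f (p k), M, B₀, B₁, hB, fun k₀ hk₀ => ?_⟩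
  simp only [hf] at hk₀ ⊢
  exact H k₀ hk₀


end Pool.W.ASM
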